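import Mathlib

/-!
# Uncountable powers of the integers are not normal (A. H. Stone), formalised (helper452)
-/

set_option autoImplicit false

namespace Pool.Agent.H452.SXN

open Set

variable {I : Type*}

/-- all values except possibly `k` are attained at most once -/
def AA (I : Type*) (k : ℕ) : Set (I → ℕ) := {x | ∀ i j, i ≠ j → x i = x j → x i = k}

theorem AA_closed (k : ℕ) : IsClosed (AA I k) := by
  have h : AA I k = ⋂ (i : I) (j : I) (_ : i ≠ j), {x : I → ℕ | x i = x j → x i = k} := by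
    ext x
    simp only [AA, mem_setOf_eq, mem_iInter]
  rw [h]
  refine isClosed_iInter fun i => isClosed_iInter fun j => isClosed_iInter fun _ => ?_
  have h1 : Continuous fun x : I → ℕ => (x i, x j) :=
    (continuous_apply i).prodMk (continuous_apply j)
  exact (isClosed_discrete {p : ℕ × ℕ | p.1 = p.2 → p.1 = k}).preimage h1

theorem AA_disjoint [Uncountable I] : Disjoint (AA I 0) (AA I 1) := by
  rw [Set.disjoint_left]
  intro x h0 h1
  have hinj : Function.Injective x := by
    intro i j hij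
    by_contra hne
    have e0 := h0 i j hne hij
    have e1 := h1 i j hne hij
    omega
  exact not_countable (hinj.countable)

theorem nhds_fin {U : Set (I → ℕ)} (hU : IsOpen U) {x : I → ℕ} (hx : x ∈ U) :
    ∃ F : Finset I, ∀ z : I → ℕ, (∀ i ∈ F, z i = x i) → z ∈ U := by
  obtain ⟨F, u, h1, h2⟩ := isOpen_pi_iff.1 hU x hx
  refine ⟨F, fun z hz => h2 ?_⟩
  intro i hi
  rw [hz i hi]
  exact (h1 i hi).2

open Classical in
/-- the position of `i` in a list -/
noncomputable def ix (L : List I) (i : I) : ℕ := L.idxOf i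

theorem ix_inj {L : List I} {i j : I} (hi : i ∈ L) (h : ix L i = ix L j) : i = j := by
  classical
  exact (List.idxOf_inj hi).1 h

theorem ix_append {L M : List I} {i : I} (hi : i ∈ L) : ix (L ++ M) i = ix L i := by
  classical
  exact List.idxOf_append_of_mem hi

open Classical in
/-- the point labelled by a list -/
noncomputable def xL (L : List I) : I → ℕ := fun i => if i ∈ L then ix L i + 1 else 0

theorem xL_pos {L : List I} {i : I} (hi : i ∈ L) : xL L i = ix L i + 1 := if_pos hi

theorem xL_neg {L : List I} {i : I} (hi : i ∉ L) : xL L i = 0 := if_neg hi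

theorem xL_mem (L : List I) : xL L ∈ AA I 0 := by
  intro i j hne hij
  rcases Classical.em (i ∈ L) with hi | hi
  · rcases Classical.em (j ∈ L) with hj | hj
    · exfalso
      rw [xL_pos hi, xL_pos hj] at hij
      exact hne (ix_inj hi (by omega))
    · rw [hij, xL_neg hj]
  · exact xL_neg hi

theorem not_normal [Uncountable I] : ¬ NormalSpace (I → ℕ) := by
  intro hn
  obtain ⟨U, V, hU, hV, hAU, hAV, hUV⟩ := hn.normal (AA I 0) (AA I 1) (AA_closed 0) (AA_closed 1)
    AA_disjoint
  have h1 : ∀ L : List I, ∃ F : Finset I, ∀ z : I → ℕ, (∀ i ∈ F, z i = xL L i) → z ∈ U :=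
    fun L => nhds_fin hU (hAU (xL_mem L))
  choose F hF using h1
  let Ls : ℕ → List I := fun n => Nat.rec [] (fun _ L => L ++ (F L).toList) n
  have hLs : ∀ n, Ls (n + 1) = Ls n ++ (F (Ls n)).toList := fun n => rfl
  have hmono : ∀ n m, n ≤ m → ∀ i ∈ Ls n, i ∈ Ls m ∧ ix (Ls m) i = ix (Ls n) i := by
    intro n m hnm
    induction m, hnm using Nat.le_induction with
    | base => intro i hi; exact ⟨hi, rfl⟩
    | succ m _ ih =>
      intro i hi
      obtain ⟨a1, a2⟩ := ih i hi
      rw [hLs]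
      refine ⟨List.mem_append_left _ a1, ?_⟩
      rw [ix_append a1, a2]
  have hyex : ∀ i : I, ∃ v : ℕ, (∀ n, i ∈ Ls n → v = ix (Ls n) i + 1) ∧
      ((¬ ∃ n, i ∈ Ls n) → v = 1) := by
    intro i
    rcases Classical.em (∃ n, i ∈ Ls n) with h | h
    · obtain ⟨m, hm⟩ := h
      refine ⟨ix (Ls m) i + 1, fun n hi => ?_, fun h' => absurd ⟨m, hm⟩ h'⟩
      rw [← (hmono m (max m n) (le_max_left _ _) i hm).2,
        (hmono n (max m n) (le_max_right _ _) i hi).2]
    · exact ⟨1, fun n hi => absurd ⟨n, hi⟩ h, fun _ => rfl⟩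
  choose y hy using hyex
  have hy1 : ∀ n, ∀ i ∈ Ls n, y i = ix (Ls n) i + 1 := fun n i hi => (hy i).1 n hi
  have hy2 : ∀ i, (¬ ∃ n, i ∈ Ls n) → y i = 1 := fun i h => (hy i).2 h
  have hyA : y ∈ AA I 1 := by
    intro i j hne hij
    rcases Classical.em (∃ n, i ∈ Ls n) with hi | hi
    · rcases Classical.em (∃ n, j ∈ Ls n) with hj | hj
      · exfalso
        obtain ⟨n, hi⟩ := hi
        obtain ⟨m, hj⟩ := hj
        have b1 := (hmono n (max n m) (le_max_left _ _) i hi).1
        have b2 := (hmono m (max n m) (le_max_right _ _) j hj).1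
        rw [hy1 _ i b1, hy1 _ j b2] at hij
        exact hne (ix_inj b1 (by omega))
      · rw [hij]; exact hy2 j hj
    · exact hy2 i hi
  obtain ⟨K, hK⟩ := nhds_fin hV (hAV hyA)
  obtain ⟨n, hn⟩ : ∃ n, ∀ i ∈ K, (∃ m, i ∈ Ls m) → i ∈ Ls n := by
    have h2 : ∀ i : I, ∃ m, (∃ m, i ∈ Ls m) → i ∈ Ls m := by
      intro i
      rcases Classical.em (∃ m, i ∈ Ls m) with h | h
      · obtain ⟨m, hm⟩ := h
        exact ⟨m, fun _ => hm⟩
      · exact ⟨0, fun h' => absurd h' h⟩
    choose f hf using h2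
    refine ⟨K.sup f, fun i hi h => ?_⟩
    exact (hmono (f i) _ (Finset.le_sup hi) i (hf i h)).1
  have hwex : ∀ i : I, ∃ v : ℕ, (i ∈ Ls n → v = y i) ∧ (i ∉ Ls n → i ∈ Ls (n + 1) → v = 0) ∧
      (i ∉ Ls n → i ∉ Ls (n + 1) → v = 1) := by
    intro i
    rcases Classical.em (i ∈ Ls n) with h | h
    · exact ⟨y i, fun _ => rfl, fun h' => absurd h h', fun h' => absurd h h'⟩
    · rcases Classical.em (i ∈ Ls (n + 1)) with h' | h'
      · exact ⟨0, fun h'' => absurd h'' h, fun _ _ => rfl, fun _ h'' => absurd h' h''⟩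
      · exact ⟨1, fun h'' => absurd h'' h, fun _ h'' => absurd h'' h', fun _ _ => rfl⟩
  choose w hw using hwex
  have hwU : w ∈ U := by
    apply hF (Ls n)
    intro i hi
    rcases Classical.em (i ∈ Ls n) with hin | hin
    · rw [(hw i).1 hin, xL_pos hin, hy1 n i hin]
    · have h3 : i ∈ Ls (n + 1) := by
        rw [hLs]
        exact List.mem_append_right _ (Finset.mem_toList.2 hi)
      rw [(hw i).2.1 hin h3, xL_neg hin]
  have hwV : w ∈ V := by
    apply hK
    intro i hi
    rcases Classical.em (i ∈ Ls n) with hin | hin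
    · exact (hw i).1 hin
    · have h3 : ¬ ∃ m, i ∈ Ls m := fun h => hin (hn i hi h)
      have h4 : i ∉ Ls (n + 1) := fun h => h3 ⟨n + 1, h⟩
      rw [(hw i).2.2 hin h4, hy2 i h3]
  exact Set.disjoint_left.1 hUV hwU hwV

end Pool.Agent.H452.SXN
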