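import Pool.Agent.H810R3.Sx.Simplex
import Pool.Agent.H452.SXN.Stone

/-!
# The extreme points of the simplex of probability measures on `I → ℕ` (helper452)
-/

set_option autoImplicit false

namespace Pool.Agent.H452.SXN

open Set Topology Pool.Agent.H810R3.Sx

variable {I : Type*}

/-- the extreme points are a copy of the product `ℕ ^ I` -/
noncomputable def homeo (I : Type*) : (I → ℕ) ≃ₜ (XX I).extremePoints ℝ where
  toEquiv := Equiv.ofBijective (fun ω => ⟨io ω, io_extreme ω⟩) (by
    constructor
    · intro ω ω' h
      exact io_injective (congrArg Subtype.val h)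
    · rintro ⟨x, hx⟩
      obtain ⟨ω, rfl⟩ := extreme_io hx
      exact ⟨ω, rfl⟩)
  continuous_toFun := io_continuous.subtype_mk _
  continuous_invFun := by
    set e := Equiv.ofBijective (fun ω : I → ℕ => (⟨io ω, io_extreme ω⟩ :
      (XX I).extremePoints ℝ)) _ with he
    refine continuous_pi fun i => ?_
    rw [continuous_discrete_rng]
    intro n
    have h1 : (fun x => e.symm x i) ⁻¹' {n} = {x : (XX I).extremePoints ℝ | x.1 ∈ Oset i n} := by
      ext x
      obtain ⟨ω, rfl⟩ := e.surjective x
      simp only [mem_preimage, Equiv.symm_apply_apply, mem_singleton_iff, mem_setOf_eq]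
      exact (io_mem_Oset ω i n).symm
    have h2 : (fun x => e.invFun x i) ⁻¹' {n} = (fun x => e.symm x i) ⁻¹' {n} := rfl
    rw [h2, h1]
    exact (Oset_isOpen i n).preimage continuous_subtype_val

theorem ext_not_normal [Uncountable I] : ¬ NormalSpace ((XX I).extremePoints ℝ) := by
  intro h
  exact not_normal (I := I) (homeo I).symm.normalSpace

end Pool.Agent.H452.SXN
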